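import Mathlib
import Pool.Agent.V1128.Cap.Derived

set_option autoImplicit false

namespace Pool.Agent.Results.MP_ca0bb9_al.FiniteCyclic

open Pool.Agent.V1128.Cap

universe u

/-- For every prime `p` and every pro-`p` group `G` with `{1} ≠ S̃(G) ≠ G`, the closed derived
subgroup of `G` is a finite cyclic group of order `p ^ n` for some `n ≥ 1`. -/
theorem result (p : ℕ) (hp : p.Prime) (G : Type u) [Group G] [TopologicalSpace G]
    [IsTopologicalGroup G] (hG : IsProP p G) (h1 : STilde G ≠ ⊥) (hS : STilde G ≠ ⊤) :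
    ∃ n : ℕ, 0 < n ∧
      Nonempty ((commutator G).topologicalClosure ≃* Multiplicative (ZMod (p ^ n))) := by
  obtain ⟨hG1, hG2, hG3, hG4⟩ := hG
  have hna : ∃ x y : G, x * y ≠ y * x := by
    by_contra hc
    push Not at hc
    apply h1
    have : {L : Subgroup G | IsClosed (L : Set G) ∧ ¬ L.Normal} = ∅ := by
      ext L
      simp only [Set.mem_ofPred_eq, Set.mem_empty_iff_false, iff_false, not_and, not_not]
      intro _
      constructor
      intro a ha g
      rwa [hc g a, mul_inv_cancel_right]
    unfold STilde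
    rw [this, sSup_empty]
    apply SetLike.coe_injective
    rw [Subgroup.topologicalClosure_coe, Subgroup.coe_bot]
    exact isClosed_singleton.closure_eq
  have hper : ∀ g : G, IsOfFinOrder g := periodic hp hG4 hS hna
  obtain ⟨c, hc⟩ := der_eq hp hG4 hS hper
  obtain ⟨m, hm⟩ := pow_ord hp hG4 (hper c)
  obtain ⟨n, -, hn⟩ := (Nat.dvd_prime_pow hp).mp (orderOf_dvd_of_pow_eq_one hm)
  have hcyc : IsCyclic ((commutator G).topologicalClosure) := by
    change IsCyclic (der G)
    rw [hc]
    infer_instance
  have hcard : Nat.card ((commutator G).topologicalClosure) = p ^ n := by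
    change Nat.card (der G) = p ^ n
    rw [hc, Nat.card_zpowers, hn]
  refine ⟨n, ?_, ⟨?_⟩⟩
  · rw [Nat.pos_iff_ne_zero]
    rintro rfl
    obtain ⟨x, y, hxy⟩ := hna
    apply hxy
    have h2 := comm_mem_der x y
    have h3 : c = 1 := by
      rw [← orderOf_eq_one_iff, hn, pow_zero]
    rw [hc, h3, Subgroup.zpowers_one_eq_bot, Subgroup.mem_bot] at h2
    exact commutatorElement_eq_one_iff_mul_comm.mp h2
  · rw [← hcard]
    exact (zmodCyclicMulEquiv hcyc).symm

end Pool.Agent.Results.MP_ca0bb9_al.FiniteCyclic
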